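import Pool.Agent.Y579.ST.Stm

/-! The greedy construction of a solution, relative to an oracle. -/

set_option autoImplicit false

namespace Pool.Agent.Y579.ST

open Pool.Agent.Helper446 Pool.Agent.Helper446.RE Pool.Agent.Helper446.Oracle

/-- The number `b` is acceptable, `l` being the sums so far. -/
def acc (w : ℕ → Bool) (b : ℕ) (l : List ℕ) : Bool :=
  l.foldl (fun r s => r && w (s + b)) (decide (0 < b) && w b)

/-- All sums of the numbers chosen below `b`. -/
def st (w : ℕ → Bool) : ℕ → List ℕ
  | 0 => []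
  | b + 1 => bif acc w b (st w b) then st w b ++ b :: (st w b).map (fun s => s + b) else st w b

/-- `b` is chosen. -/
def pick (w : ℕ → Bool) (b : ℕ) : Bool := acc w b (st w b)

theorem foldl_and (w : ℕ → Bool) (b : ℕ) (l : List ℕ) (r : Bool) :
    l.foldl (fun r s => r && w (s + b)) r = true ↔ r = true ∧ ∀ s ∈ l, w (s + b) = true := by
  induction l generalizing r with
  | nil => simp
  | cons a l ih =>
    rw [List.foldl_cons, ih]
    simp only [Bool.and_eq_true, List.mem_cons, forall_eq_or_imp, and_assoc]

theorem acc_iff {w : ℕ → Bool} {b : ℕ} {l : List ℕ} :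
    acc w b l = true ↔ 0 < b ∧ w b = true ∧ ∀ s ∈ l, w (s + b) = true := by
  unfold acc
  rw [foldl_and]
  simp only [Bool.and_eq_true, decide_eq_true_eq, and_assoc]

theorem st_succ_pos {w : ℕ → Bool} {b : ℕ} (h : pick w b = true) :
    st w (b + 1) = st w b ++ b :: (st w b).map (fun s => s + b) := by
  unfold pick at h
  simp only [st, h, cond_true]

theorem st_succ_neg {w : ℕ → Bool} {b : ℕ} (h : pick w b = false) : st w (b + 1) = st w b := by
  unfold pick at h
  simp only [st, h, cond_false]

theorem mem_st_succ {w : ℕ → Bool} {b s : ℕ} : s ∈ st w (b + 1) ↔ s ∈ st w b ∨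
    (pick w b = true ∧ (s = b ∨ ∃ s' ∈ st w b, s = s' + b)) := by
  cases h : pick w b with
  | false => rw [st_succ_neg h]; simp
  | true =>
    rw [st_succ_pos h]
    simp only [List.mem_append, List.mem_cons, List.mem_map, true_and]
    constructor
    · rintro (h1 | h1 | ⟨s', h1, h2⟩)
      exacts [Or.inl h1, Or.inr (Or.inl h1), Or.inr (Or.inr ⟨s', h1, h2.symm⟩)]
    · rintro (h1 | h1 | ⟨s', h1, h2⟩)
      exacts [Or.inl h1, Or.inr (Or.inl h1), Or.inr (Or.inr ⟨s', h1, h2.symm⟩)]

theorem st_le {w : ℕ → Bool} {b : ℕ} : ∀ s ∈ st w b, s ≤ b * b := by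
  induction b with
  | zero => intro s hs; simp [st] at hs
  | succ b ih =>
    intro s hs
    rcases mem_st_succ.1 hs with h | ⟨_, h | ⟨s', h1, h2⟩⟩
    · have := ih s h; nlinarith
    · nlinarith
    · have := ih s' h1; nlinarith

theorem acc_congr {w w' : ℕ → Bool} {b : ℕ} {l : List ℕ} (hb : w b = w' b)
    (h : ∀ s ∈ l, w (s + b) = w' (s + b)) : acc w b l = acc w' b l := by
  rw [Bool.eq_iff_iff, acc_iff, acc_iff, hb]
  constructor
  · rintro ⟨h1, h2, h3⟩
    exact ⟨h1, h2, fun s hs => by rw [← h s hs]; exact h3 s hs⟩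
  · rintro ⟨h1, h2, h3⟩
    exact ⟨h1, h2, fun s hs => by rw [h s hs]; exact h3 s hs⟩

theorem st_congr {w w' : ℕ → Bool} {b : ℕ} (h : ∀ n < b * b, w n = w' n) : st w b = st w' b := by
  induction b with
  | zero => rfl
  | succ b ih =>
    have h1 : st w b = st w' b := ih fun n hn => h n (by nlinarith)
    have h2 : acc w b (st w b) = acc w' b (st w' b) := by
      rw [← h1]
      refine acc_congr (h b (by nlinarith)) fun s hs => h _ ?_
      have := st_le s hs
      nlinarith
    simp only [st]
    rw [h2, h1]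

theorem pick_congr {w w' : ℕ → Bool} {b : ℕ} (h : ∀ n < (b + 1) * (b + 1), w n = w' n) :
    pick w b = pick w' b := by
  unfold pick
  have h1 : st w b = st w' b := st_congr fun n hn => h n (by nlinarith)
  rw [← h1]
  refine acc_congr (h b (by nlinarith)) fun s hs => h _ ?_
  have := st_le s hs
  nlinarith

theorem st_ok {w : ℕ → Bool} {b : ℕ} : ∀ s ∈ st w b, w s = true := by
  induction b with
  | zero => intro s hs; simp [st] at hs
  | succ b ih =>
    intro s hs
    rcases mem_st_succ.1 hs with h | ⟨hp, h⟩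
    · exact ih s h
    · have h1 := acc_iff.1 hp
      rcases h with rfl | ⟨s', h2, rfl⟩
      · exact h1.2.1
      · exact h1.2.2 s' h2

theorem sum_mem {w : ℕ → Bool} (b : ℕ) : ∀ F : Finset ℕ, (∀ x ∈ F, x < b ∧ pick w x = true) →
    F.Nonempty → ∑ n ∈ F, n ∈ st w b := by
  induction b with
  | zero =>
    rintro F hF ⟨x, hx⟩
    exact absurd (hF x hx).1 (Nat.not_lt_zero _)
  | succ b ih =>
    intro F hF hne
    rw [mem_st_succ]
    by_cases hb : b ∈ F
    · right
      refine ⟨(hF b hb).2, ?_⟩
      rcases (F.erase b).eq_empty_or_nonempty with he | he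
      · left
        rw [← Finset.sum_erase_add F _ hb, he]
        simp
      · right
        refine ⟨_, ih (F.erase b) (fun x hx => ?_) he, ?_⟩
        · have h1 := hF x (Finset.mem_of_mem_erase hx)
          have h2 := Finset.ne_of_mem_erase hx
          exact ⟨by omega, h1.2⟩
        · rw [Finset.sum_erase_add F _ hb]
    · left
      refine ih F (fun x hx => ?_) hne
      have h1 := hF x hx
      have h2 : x ≠ b := fun h => hb (h ▸ hx)
      exact ⟨by omega, h1.2⟩

/-- The value in a table. -/
def tb (t : List Bool) (n : ℕ) : Bool := (t[n]?).getD false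

theorem pr_tb {α : Type} [Primcodable α] {f : α → List Bool} {g : α → ℕ} (hf : Primrec f)
    (hg : Primrec g) : Primrec fun a => tb (f a) (g a) := by
  unfold tb
  exact Primrec.option_getD.comp (Primrec.list_getElem?.comp hf hg) (Primrec.const false)

theorem pr_acc {α : Type} [Primcodable α] {f : α → List Bool} {g : α → ℕ} {l : α → List ℕ}
    (hf : Primrec f) (hg : Primrec g) (hl : Primrec l) :
    Primrec fun a => acc (tb (f a)) (g a) (l a) := by
  unfold acc
  have h0 : Primrec fun a => decide (0 < g a) :=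
    (Primrec.nat_lt.comp (Primrec.const 0) hg).decide
  refine Primrec.list_foldl (f := l) (g := fun a => decide (0 < g a) && tb (f a) (g a))
    (h := fun a (p : Bool × ℕ) => p.1 && tb (f a) (p.2 + g a)) hl ?_ ?_
  · exact Primrec.and.comp h0 (pr_tb hf hg)
  · refine Primrec.and.comp (Primrec.fst.comp Primrec.snd) (pr_tb (hf.comp Primrec.fst) ?_)
    exact Primrec.nat_add.comp (Primrec.snd.comp Primrec.snd) (hg.comp Primrec.fst)

theorem pr_st : Primrec₂ fun (t : List Bool) (b : ℕ) => st (tb t) b := by
  have h : Primrec₂ fun (t : List Bool) (b : ℕ) => (Nat.rec (motive := fun _ => List ℕ) []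
      (fun b l => bif acc (tb t) b l then l ++ b :: l.map (fun s => s + b) else l) b : List ℕ) := by
    refine Primrec.nat_rec (f := fun _ : List Bool => ([] : List ℕ))
      (g := fun t (p : ℕ × List ℕ) => bif acc (tb t) p.1 p.2 then
        p.2 ++ p.1 :: p.2.map (fun s => s + p.1) else p.2) (Primrec.const []) ?_
    have e1 : Primrec fun x : List Bool × ℕ × List ℕ => x.2.1 := Primrec.fst.comp Primrec.snd
    have e2 : Primrec fun x : List Bool × ℕ × List ℕ => x.2.2 := Primrec.snd.comp Primrec.snd
    refine Primrec.cond (pr_acc Primrec.fst e1 e2) ?_ e2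
    refine Primrec.list_append.comp e2 (Primrec.list_cons.comp e1 ?_)
    refine Primrec.list_map e2 ?_
    exact Primrec.nat_add.comp Primrec.snd (e1.comp Primrec.fst)
  refine h.of_eq fun t b => ?_
  induction b with
  | zero => rfl
  | succ b ih =>
    simp only [st]
    rw [← ih]

theorem pr_pick : Primrec₂ fun (t : List Bool) (b : ℕ) => pick (tb t) b := by
  unfold pick
  exact pr_acc Primrec.fst Primrec.snd pr_st

theorem t_GREEDY : S_GREEDY := by
  classical
  intro k c g i Z hc hg hE
  let w : ℕ → Bool := fun n => decide (c n = i ∧ g n = i)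
  have hw : ∀ n, w n = true ↔ c n = i ∧ g n = i := fun n => by simp [w]
  have hne : ∀ {f : ℕ → Fin k}, (REIn Z fun p : ℕ × Fin k => f p.1 = p.2) →
      REIn Z fun n : ℕ => f n ≠ i := by
    intro f hf
    have h1 : REIn Z fun n : ℕ => ∃ j : Fin k, f n = j ∧ j ≠ i := by
      refine REIn.ex (S := fun (n : ℕ) (j : Fin k) => f n = j ∧ j ≠ i) ?_
      exact REIn.and hf (REIn.of_re (RE.ne (by fun_prop) (by fun_prop)))
    refine h1.of_eq fun n => ⟨?_, fun h => ⟨_, rfl, h⟩⟩
    rintro ⟨j, rfl, h⟩
    exact h
  have w1 : REIn Z fun n : ℕ => w n = true := by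
    refine (REIn.and (hc.comp (f := fun n : ℕ => (n, i)) (by fun_prop))
      (hg.comp (f := fun n : ℕ => (n, i)) (by fun_prop))).of_eq fun n => (hw n).symm
  have w0 : REIn Z fun n : ℕ => w n = false := by
    refine (REIn.or (hne hc) (hne hg)).of_eq fun n => ?_
    rw [← Bool.not_eq_true, hw]
    tauto
  have hcor : REIn Z fun t : List Bool => ∀ n < t.length, tb t n = w n := by
    refine REIn.all_lt (S := fun (t : List Bool) n => tb t n = w n) ?_ (by fun_prop)
    have t1 : Computable fun p : List Bool × ℕ => tb p.1 p.2 :=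
      (pr_tb Primrec.fst Primrec.snd).to_comp
    have h1 : REIn Z fun p : List Bool × ℕ => (tb p.1 p.2 = true ∧ w p.2 = true) ∨
        (tb p.1 p.2 = false ∧ w p.2 = false) := by
      refine REIn.or (REIn.and (REIn.of_re (RE.eq t1 (by fun_prop))) (w1.comp Computable.snd))
        (REIn.and (REIn.of_re (RE.eq t1 (by fun_prop))) (w0.comp Computable.snd))
    refine h1.of_eq fun p => ?_
    cases tb p.1 p.2 <;> cases w p.2 <;> simp
  have hval : ∀ v : Bool, REIn Z fun x : ℕ => pick w x = v := by
    intro v
    have h1 : REIn Z fun x : ℕ => ∃ t : List Bool, (∀ n < t.length, tb t n = w n) ∧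
        (x + 1) * (x + 1) ≤ t.length ∧ pick (tb t) x = v := by
      refine REIn.ex (S := fun (x : ℕ) (t : List Bool) => (∀ n < t.length, tb t n = w n) ∧
        (x + 1) * (x + 1) ≤ t.length ∧ pick (tb t) x = v) ?_
      refine REIn.and (hcor.comp Computable.snd) (REIn.and (REIn.of_re (RE.le ?_ ?_))
        (REIn.of_re (RE.eq ?_ (by fun_prop))))
      · have : Primrec fun x : ℕ × List Bool => (x.1 + 1) * (x.1 + 1) :=
          Primrec.nat_mul.comp (Primrec.succ.comp Primrec.fst) (Primrec.succ.comp Primrec.fst)
        exact this.to_comp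
      · exact Computable.list_length.comp Computable.snd
      · have : Primrec fun x : ℕ × List Bool => pick (tb x.2) x.1 :=
          pr_pick.comp Primrec.snd Primrec.fst
        exact this.to_comp
    refine h1.of_eq fun x => ?_
    constructor
    · rintro ⟨t, h2, h3, h4⟩
      rw [← h4]
      exact pick_congr fun n hn => (h2 n (by omega)).symm
    · intro h2
      refine ⟨(List.range ((x + 1) * (x + 1))).map w, ?_, ?_, ?_⟩
      · intro n hn
        rw [List.length_map, List.length_range] at hn
        unfold tb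
        simp [List.getElem?_range hn]
      · simp
      · rw [← h2]
        refine pick_congr fun n hn => ?_
        unfold tb
        simp [List.getElem?_range hn]
  refine ⟨{x | pick w x = true}, ⟨?_, ?_, ?_⟩, hval true, ?_⟩
  · by_contra hfin
    rw [Set.not_infinite] at hfin
    obtain ⟨B, hB⟩ := hfin.bddAbove
    have h1 : ∀ b, B < b → pick w b = false := by
      intro b hb
      rw [← Bool.not_eq_true]
      intro h
      have := hB h
      omega
    have h2 : ∀ j, st w (B + 1 + j) = st w (B + 1) := by
      intro j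
      induction j with
      | zero => rfl
      | succ j ih => rw [← add_assoc, st_succ_neg (h1 _ (by omega)), ih]
    obtain ⟨y, hy1, hy2, hy3, hy4⟩ := hE (st w (B + 1)).toFinset B
      (fun s hs => (hw s).1 (st_ok s (List.mem_toFinset.1 hs)))
    have h3 : pick w y = true := by
      unfold pick
      rw [acc_iff]
      refine ⟨by omega, (hw y).2 ⟨hy2, hy3⟩, fun s hs => (hw _).2 (hy4 s ?_)⟩
      obtain ⟨j, hj⟩ := Nat.exists_eq_add_of_le (show B + 1 ≤ y by omega)
      rw [hj, h2] at hs
      exact List.mem_toFinset.2 hs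
    have := h1 y hy1
    rw [h3] at this
    cases this
  · intro h
    have := (acc_iff.1 h).1
    omega
  · intro F hF hne'
    obtain ⟨b, hb⟩ : ∃ b, ∀ x ∈ F, x < b :=
      ⟨F.sup id + 1, fun x hx => Nat.lt_succ_of_le (Finset.le_sup (f := id) hx)⟩
    exact ((hw _).1 (st_ok _ (sum_mem (w := w) b F (fun x hx => ⟨hb x hx, hF hx⟩) hne'))).1
  · refine (hval false).of_eq fun n => ?_
    show _ ↔ ¬ (pick w n = true)
    rw [Bool.not_eq_true]

end Pool.Agent.Y579.ST
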