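import Pool.Agent.Y579.ST.Stm

/-! Limits of colourings of finite Littlestone dimension are computable from the colouring. -/

set_option autoImplicit false

namespace Pool.Agent.Y579.ST

open Filter Pool.Agent.Helper446 Pool.Agent.Helper446.RE Pool.Agent.Helper446.Oracle
open Pool.Agent.H645R2.HT Pool.Agent.TH747.HT

variable {k : ℕ} {c : ℕ → Fin k} {Z : Set ℕ}

theorem lit_mono {d : ℕ} : ∀ {A B : ℕ → Prop}, (∀ y, A y → B y) → Lit c d A → Lit c d B := by
  induction d with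
  | zero =>
    rintro A B h ⟨y, hy⟩
    exact ⟨y, h y hy⟩
  | succ d ih =>
    rintro A B h ⟨x, i, j, hij, h1, h2⟩
    exact ⟨x, i, j, hij, ih (fun y hy => ⟨h y hy.1, hy.2⟩) h1, ih (fun y hy => ⟨h y hy.1, hy.2⟩) h2⟩

theorem lit_succ {d : ℕ} {A : ℕ → Prop} (h : Lit c (d + 1) A) : Lit c d A := by
  obtain ⟨x, i, j, -, h1, -⟩ := h
  exact lit_mono (fun y hy => hy.1) h1

theorem re_beyond {α : Type} [Primcodable α] {f g : α → ℕ} (hf : Computable f)
    (hg : Computable g) : REPred fun a => Beyond (f a) (g a) := by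
  unfold Beyond
  refine RE.and (RE.lt (by fun_prop) hf) (RE.and (RE.lt (by fun_prop) hg) ?_)
  refine RE.exN (p := fun a N => f a < 3 ^ N ∧ 3 ^ N ∣ g a) ?_
  have h3 : Computable fun x : α × ℕ => 3 ^ x.2 := pr_pow3.to_comp.comp Computable.snd
  refine RE.and (RE.lt (by fun_prop) h3) ?_
  have h4 : REPred fun x : α × ℕ => g x.1 % 3 ^ x.2 = 0 := by
    refine RE.eq ?_ (by fun_prop)
    exact Primrec.nat_mod.to_comp.comp (hg.comp Computable.fst) h3
  exact h4.of_eq fun x => (Nat.dvd_iff_mod_eq_zero ..).symm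

theorem re_lit (hc : REIn Z fun p : ℕ × Fin k => c p.1 = p.2) (d : ℕ) :
    ∀ {α : Type} [Primcodable α] {A : α → ℕ → Prop},
      (REIn Z fun p : α × ℕ => A p.1 p.2) → REIn Z fun a => Lit c d (A a) := by
  induction d with
  | zero =>
    intro α _ A hA
    exact REIn.ex (S := fun (a : α) (y : ℕ) => A a y) hA
  | succ d ih =>
    intro α _ A hA
    have h1 : REIn Z fun q : α × ℕ × Fin k => Lit c d
        (fun y => A q.1 y ∧ Beyond q.2.1 y ∧ c (q.2.1 + y) = q.2.2) := by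
      refine ih (A := fun (q : α × ℕ × Fin k) y => A q.1 y ∧ Beyond q.2.1 y ∧
        c (q.2.1 + y) = q.2.2) ?_
      refine REIn.and ?_ (REIn.and ?_ ?_)
      · exact hA.comp (f := fun p : (α × ℕ × Fin k) × ℕ => (p.1.1, p.2)) (by fun_prop)
      · exact REIn.of_re (re_beyond (by fun_prop) (by fun_prop))
      · exact hc.comp (f := fun p : (α × ℕ × Fin k) × ℕ => (p.1.2.1 + p.2, p.1.2.2)) (by fun_prop)
    have h2 : REIn Z fun q : α × ℕ × Fin k × Fin k => q.2.2.1 ≠ q.2.2.2 ∧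
        Lit c d (fun y => A q.1 y ∧ Beyond q.2.1 y ∧ c (q.2.1 + y) = q.2.2.1) ∧
        Lit c d (fun y => A q.1 y ∧ Beyond q.2.1 y ∧ c (q.2.1 + y) = q.2.2.2) := by
      refine REIn.and (REIn.of_re (RE.ne (by fun_prop) (by fun_prop))) (REIn.and ?_ ?_)
      · exact h1.comp (f := fun q : α × ℕ × Fin k × Fin k => (q.1, q.2.1, q.2.2.1)) (by fun_prop)
      · exact h1.comp (f := fun q : α × ℕ × Fin k × Fin k => (q.1, q.2.1, q.2.2.2)) (by fun_prop)
    have h3 : REIn Z fun a => ∃ r : ℕ × Fin k × Fin k, r.2.1 ≠ r.2.2 ∧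
        Lit c d (fun y => A a y ∧ Beyond r.1 y ∧ c (r.1 + y) = r.2.1) ∧
        Lit c d (fun y => A a y ∧ Beyond r.1 y ∧ c (r.1 + y) = r.2.2) :=
      REIn.ex (S := fun (a : α) (r : ℕ × Fin k × Fin k) => r.2.1 ≠ r.2.2 ∧
        Lit c d (fun y => A a y ∧ Beyond r.1 y ∧ c (r.1 + y) = r.2.1) ∧
        Lit c d (fun y => A a y ∧ Beyond r.1 y ∧ c (r.1 + y) = r.2.2)) h2
    refine h3.of_eq fun a => ?_
    show _ ↔ ∃ x, ∃ i j : Fin k, i ≠ j ∧ Lit c d (fun y => A a y ∧ Beyond x y ∧ c (x + y) = i) ∧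
      Lit c d (fun y => A a y ∧ Beyond x y ∧ c (x + y) = j)
    constructor
    · rintro ⟨⟨x, i, j⟩, h⟩
      exact ⟨x, i, j, h⟩
    · rintro ⟨x, i, j, h⟩
      exact ⟨⟨x, i, j⟩, h⟩

/-- the numbers `y` which are multiples of `3 ^ N` and agree with the limit on `F` -/
def Ag (c g : ℕ → Fin k) (F : Finset ℕ) (N y : ℕ) : Prop :=
  0 < y ∧ 3 ^ N ∣ y ∧ ∀ x ∈ F, c (x + y) = g x

theorem re_ag (hc : REIn Z fun p : ℕ × Fin k => c p.1 = p.2) (g : ℕ → Fin k) (F : Finset ℕ)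
    (N : ℕ) : REIn Z fun y : ℕ => Ag c g F N y := by
  unfold Ag
  refine REIn.and (REIn.of_re (RE.lt (by fun_prop) (by fun_prop))) (REIn.and ?_ ?_)
  · have h4 : REPred fun y : ℕ => y % 3 ^ N = 0 := by
      refine RE.eq ?_ (by fun_prop)
      exact Primrec.nat_mod.to_comp.comp Computable.id (Computable.const _)
    exact REIn.of_re (h4.of_eq fun x => (Nat.dvd_iff_mod_eq_zero ..).symm)
  · induction F using Finset.induction_on with
    | empty =>
      refine (REIn.of_re (S := fun y : ℕ => y = y) (RE.eq (by fun_prop) (by fun_prop))).of_eq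
        fun y => ?_
      simp
    | insert a F _ ih =>
      have h1 : REIn Z fun y : ℕ => c (a + y) = g a :=
        hc.comp (f := fun y : ℕ => (a + y, g a)) (by fun_prop)
      refine (REIn.and h1 ih).of_eq fun y => ?_
      simp

theorem exists_gen {V : Ultrafilter ℕ} {g : ℕ → Fin k}
    (hV : ∀ N, ∀ᶠ y in (V : Filter ℕ), 0 < y ∧ 3 ^ N ∣ y)
    (hg : ∀ x, ∀ᶠ y in (V : Filter ℕ), c (x + y) = g x)
    {d : ℕ} (hd : ¬ Lit c d fun _ => True) :
    ∃ (d₀ : ℕ) (F : Finset ℕ) (N : ℕ), ∀ x i, 0 < x →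
      (g x = i ↔ Lit c d₀ fun y => Ag c g F N y ∧ Beyond x y ∧ c (x + y) = i) := by
  classical
  have hP : ∃ d, ∃ (F : Finset ℕ) (N : ℕ), ¬ Lit c (d + 1) (Ag c g F N) :=
    ⟨d, ∅, 0, fun h => hd (lit_mono (fun _ _ => trivial) (lit_succ h))⟩
  obtain ⟨F, N, hFN⟩ := Nat.find_spec hP
  have hmin : ∀ F' N', Lit c (Nat.find hP) (Ag c g F' N') := by
    intro F' N'
    rcases Nat.eq_zero_or_eq_succ_pred (Nat.find hP) with h0 | h0
    · rw [h0]
      have h1 : ∀ᶠ y in (V : Filter ℕ), ∀ x ∈ F', c (x + y) = g x :=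
        (Filter.eventually_all_finset F').2 fun x _ => hg x
      obtain ⟨y, hy1, hy2⟩ := ((hV N').and h1).exists
      exact ⟨y, hy1.1, hy1.2, hy2⟩
    · by_contra hc'
      have h2 := Nat.find_min hP (m := (Nat.find hP).pred) (by omega)
      apply h2
      refine ⟨F', N', ?_⟩
      have h3 : (Nat.find hP).pred + 1 = Nat.find hP := by omega
      rw [h3]
      exact hc'
  refine ⟨Nat.find hP, F, N, fun x i hx => ?_⟩
  have key : Lit c (Nat.find hP) fun y => Ag c g F N y ∧ Beyond x y ∧ c (x + y) = g x := by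
    refine lit_mono ?_ (hmin (insert x F) (max N x))
    rintro y ⟨h1, h2, h3⟩
    refine ⟨⟨h1, dvd_trans (pow_dvd_pow 3 (le_max_left N x)) h2, fun z hz =>
      h3 z (Finset.mem_insert_of_mem hz)⟩, ⟨hx, h1, x, Nat.lt_pow_self (by norm_num),
      dvd_trans (pow_dvd_pow 3 (le_max_right N x)) h2⟩, h3 x (Finset.mem_insert_self _ _)⟩
  constructor
  · rintro rfl
    exact key
  · intro h
    by_contra hne
    exact hFN ⟨x, g x, i, hne, key, h⟩

/-- Every limit of the colouring is computable from it. -/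
theorem re_limit (hc : REIn Z fun p : ℕ × Fin k => c p.1 = p.2) {V : Ultrafilter ℕ}
    {g : ℕ → Fin k} (hV : ∀ N, ∀ᶠ y in (V : Filter ℕ), 0 < y ∧ 3 ^ N ∣ y)
    (hg : ∀ x, ∀ᶠ y in (V : Filter ℕ), c (x + y) = g x)
    {d : ℕ} (hd : ¬ Lit c d fun _ => True) : REIn Z fun p : ℕ × Fin k => g p.1 = p.2 := by
  obtain ⟨d₀, F, N, h⟩ := exists_gen hV hg hd
  have h1 : REIn Z fun p : ℕ × Fin k =>
      Lit c d₀ fun y => Ag c g F N y ∧ Beyond p.1 y ∧ c (p.1 + y) = p.2 := by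
    refine re_lit hc d₀ (A := fun (p : ℕ × Fin k) y => Ag c g F N y ∧ Beyond p.1 y ∧
      c (p.1 + y) = p.2) ?_
    refine REIn.and ((re_ag hc g F N).comp Computable.snd) (REIn.and ?_ ?_)
    · exact REIn.of_re (re_beyond (by fun_prop) (by fun_prop))
    · exact hc.comp (f := fun p : (ℕ × Fin k) × ℕ => (p.1.1 + p.2, p.1.2)) (by fun_prop)
  have h2 : REIn Z fun p : ℕ × Fin k => (p.1 = 0 ∧ p.2 = g 0) ∨ (0 < p.1 ∧
      Lit c d₀ fun y => Ag c g F N y ∧ Beyond p.1 y ∧ c (p.1 + y) = p.2) := by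
    refine REIn.or (REIn.of_re (RE.and (RE.eq (by fun_prop) (by fun_prop))
      (RE.eq (by fun_prop) (by fun_prop)))) (REIn.and (REIn.of_re (RE.lt (by fun_prop)
      (by fun_prop))) h1)
  refine h2.of_eq fun p => ?_
  rcases Nat.eq_zero_or_pos p.1 with h3 | h3
  · rw [h3]
    constructor
    · rintro (⟨_, h4⟩ | ⟨h4, _⟩)
      · exact h4.symm
      · omega
    · intro h4
      exact Or.inl ⟨rfl, h4.symm⟩
  · rw [h p.1 p.2 h3]
    constructor
    · rintro (⟨h4, _⟩ | ⟨_, h4⟩)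
      · omega
      · exact h4
    · intro h4
      exact Or.inr ⟨h3, h4⟩

/-- a limit exists -/
theorem exists_limit (V : Ultrafilter ℕ) (c : ℕ → Fin k) :
    ∃ g : ℕ → Fin k, ∀ x, ∀ᶠ y in (V : Filter ℕ), c (x + y) = g x := by
  have h : ∀ x, ∃ i : Fin k, ∀ᶠ y in (V : Filter ℕ), c (x + y) = i := by
    intro x
    have h2 : ∀ᶠ y in (V : Filter ℕ), ∃ i ∈ (Set.univ : Set (Fin k)), c (x + y) = i :=
      Eventually.of_forall fun y => ⟨_, Set.mem_univ _, rfl⟩
    have h3 := (Ultrafilter.eventually_exists_mem_iff (f := V) (Set.finite_univ)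
      (P := fun (i : Fin k) y => c (x + y) = i)).1 h2
    obtain ⟨i, _, hi⟩ := h3
    exact ⟨i, hi⟩
  choose g hg using h
  exact ⟨g, hg⟩

/-- The first part of the theorem, from the greedy construction. -/
theorem solution (hG : S_GREEDY) (hc : REIn Z fun p : ℕ × Fin k => c p.1 = p.2)
    {d : ℕ} (hd : ¬ Lit c d fun _ => True) :
    ∃ (i : Fin k) (X : Set ℕ), Sol c i X ∧ (REIn Z fun n : ℕ => n ∈ X) ∧
      REIn Z fun n : ℕ => n ∉ X := by
  obtain ⟨U, hU, -⟩ := exists_idem (X := {n | 0 < n}) (Set.infinite_of_forall_exists_gt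
    fun n => ⟨n + 1, Nat.succ_pos n, Nat.lt_succ_self n⟩) (fun x hx => hx)
  obtain ⟨g, hg⟩ := exists_limit U c
  have hV : ∀ N, ∀ᶠ y in (U : Filter ℕ), 0 < y ∧ 3 ^ N ∣ y := fun N =>
    hU.2.and (hU.dvd (N := 3 ^ N) (by positivity))
  have key : ∀ s, g s = g 0 → ∀ᶠ y in (U : Filter ℕ), c (s + y) = g 0 ∧ g (s + y) = g 0 := by
    intro s hs
    have h1 : ∀ᶠ y in (U : Filter ℕ), c (s + y) = g 0 := by
      filter_upwards [hg s] with y hy
      rw [hy, hs]
    have h2 := (hU.1 (fun n => c (s + n) = g 0)).2 h1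
    filter_upwards [h1, h2] with y hy1 hy2
    refine ⟨hy1, ?_⟩
    obtain ⟨m, hm1, hm2⟩ := (hy2.and (hg (s + y))).exists
    rw [← hm2, ← hm1, add_assoc]
  refine ⟨g 0, hG k c g (g 0) Z hc (re_limit hc hV hg hd) fun S N hS => ?_⟩
  have h3 : ∀ᶠ y in (U : Filter ℕ), ∀ s ∈ S, c (s + y) = g 0 ∧ g (s + y) = g 0 :=
    (Filter.eventually_all_finset S).2 fun s hs => key s (hS s hs).2
  obtain ⟨y, hy1, hy2, hy3⟩ := ((hV (N + 1)).and ((key 0 rfl).and h3)).exists
  refine ⟨y, ?_, ?_, ?_, hy3⟩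
  · have h4 := Nat.le_of_dvd hy1.1 hy1.2
    have h5 : N + 1 < 3 ^ (N + 1) := Nat.lt_pow_self (by norm_num)
    omega
  · simpa using hy2.1
  · simpa using hy2.2

end Pool.Agent.Y579.ST
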