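import Pool.Agent.TH747.HS.FS

/-!
# Hindman's theorem for colourings of finite Littlestone dimension: definitions and statements
-/

set_option autoImplicit false

namespace Pool.Agent.Y579.ST

open Pool.Agent.Helper446 Pool.Agent.Helper446.Oracle

/-- `y` lies beyond `x`: `y` is a multiple of a power of `3` that is greater than `x`. -/
def Beyond (x y : ℕ) : Prop := 0 < x ∧ 0 < y ∧ ∃ N, x < 3 ^ N ∧ 3 ^ N ∣ y

/-- The numbers in `A` shatter a tree of depth `d`: every inner node is labelled with a number `x`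
and two colours `i ≠ j`; all leaves `y` below the first (second) edge are in `A`, beyond `x` and
`c (x + y) = i` (`c (x + y) = j`). -/
def Lit {k : ℕ} (c : ℕ → Fin k) : ℕ → (ℕ → Prop) → Prop
  | 0, A => ∃ y, A y
  | d + 1, A => ∃ x, ∃ i j : Fin k, i ≠ j ∧ Lit c d (fun y => A y ∧ Beyond x y ∧ c (x + y) = i) ∧
      Lit c d (fun y => A y ∧ Beyond x y ∧ c (x + y) = j)

/-- The Vapnik-Chervonenkis dimension (of the sums `x + y` with `y` beyond `x`) is at most `1`. -/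
def VCOne (c : ℕ → Fin 2) : Prop :=
  ¬ ∃ x : Fin 2 → ℕ, ∀ S : Fin 2 → Fin 2, ∃ y, (∀ j, Beyond (x j) y) ∧ ∀ j, c (x j + y) = S j

/-- `X` is a solution with colour `i`: infinite, positive, all finite sums get the colour `i`. -/
def Sol {k : ℕ} (c : ℕ → Fin k) (i : Fin k) (X : Set ℕ) : Prop :=
  X.Infinite ∧ 0 ∉ X ∧ ∀ F : Finset ℕ, (F : Set ℕ) ⊆ X → F.Nonempty → c (∑ n ∈ F, n) = i

/-- GREEDY: the greedy construction, relative to an oracle `Z` -/
def S_GREEDY : Prop := ∀ (k : ℕ) (c g : ℕ → Fin k) (i : Fin k) (Z : Set ℕ),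
  (REIn Z fun p : ℕ × Fin k => c p.1 = p.2) → (REIn Z fun p : ℕ × Fin k => g p.1 = p.2) →
  (∀ (S : Finset ℕ) (N : ℕ), (∀ s ∈ S, c s = i ∧ g s = i) →
    ∃ y, N < y ∧ c y = i ∧ g y = i ∧ ∀ s ∈ S, c (s + y) = i ∧ g (s + y) = i) →
  ∃ X : Set ℕ, Sol c i X ∧ (REIn Z fun n : ℕ => n ∈ X) ∧ REIn Z fun n : ℕ => n ∉ X

/-- ORD: a computable linear order with a cut both of whose sides are immune -/
def S_ORD : Prop := ∃ (r : ℕ → ℕ → Bool) (Lo Hi : Set ℕ),
  Computable (fun p : ℕ × ℕ => r p.1 p.2) ∧ (∀ a, r a a = false) ∧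
  (∀ a b c, r a b = true → r b c = true → r a c = true) ∧
  (∀ a b, a ≠ b → r a b = true ∨ r b a = true) ∧ (∀ a ∈ Lo, ∀ b ∈ Hi, r a b = true) ∧
  ∀ W : ℕ → Prop, REPred W → (∀ N, ∃ n, N < n ∧ W n) → (∃ n ∈ Lo, W n) ∧ ∃ n ∈ Hi, W n

/-- VCX: a computable colouring of VC dimension at most one without computable solution -/
def S_VCX : Prop := S_ORD → ∃ c : ℕ → Fin 2, Computable c ∧ VCOne c ∧
  ∀ X : Set ℕ, ComputablePred (fun n => n ∈ X) → ∀ i, ¬ Sol c i X

end Pool.Agent.Y579.ST
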